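import Pool.Agent.N520.RO.Stm

/-!
# Project RO, task WFLAG: the weight flag of a representation of a rank one group
-/

set_option autoImplicit false

open Filter Topology

namespace Pool.Agent.N278.RO

open Pool.Agent.N520.RO

section grp

variable {G : Type} [Group G] [TopologicalSpace G] {K : Set G} {P : Subgroup G} {T : ℝ → G} {w : G}

theorem T_zero (h : RankOne K P T w) : T 0 = 1 := by
  have h1 := h.add 0 0
  rw [add_zero] at h1
  exact mul_eq_left.1 h1.symm

theorem T_neg (h : RankOne K P T w) (t : ℝ) : T (-t) = (T t)⁻¹ := by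
  have h1 := h.add t (-t)
  rw [add_neg_cancel, T_zero h] at h1
  exact (inv_eq_of_mul_eq_one_right h1.symm).symm

theorem P_form (h : RankOne K P T w) {p : G} (hp : p ∈ P) :
    ∃ s : ℝ, ∀ᶠ t in atTop, ∃ k ∈ K, p = T s * (T t * (k * T (-t))) ∧
      p⁻¹ = T t * (k⁻¹ * (T (-t) * T (-s))) := by
  obtain ⟨s, hs⟩ := h.langlands p hp
  refine ⟨s, hs.mono fun t ht => ⟨_, ht, ?_, ?_⟩⟩
  · rw [T_neg h, T_neg h]
    group
  · rw [T_neg h, T_neg h]
    group

end grp

section rep

variable {G : Type} [Group G] [TopologicalSpace G] [IsTopologicalGroup G] {K : Set G}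
  {P : Subgroup G} {T : ℝ → G} {w : G}
  {E : Type} [NormedAddCommGroup E] [NormedSpace ℝ E] [FiniteDimensional ℝ E]
  {ρ : G →* (E ≃ₗ[ℝ] E)} {ι : Type} [Fintype ι]
  (b : Module.Basis ι ℝ E) (c : ι → ℝ)

omit [TopologicalSpace G] [IsTopologicalGroup G] [FiniteDimensional ℝ E] [Fintype ι] in
theorem coord_T (hc : ∀ (j : ι) (t : ℝ), ρ (T t) (b j) = Real.exp (c j * t) • b j) (i : ι) (t : ℝ)
    (v : E) : b.coord i (ρ (T t) v) = Real.exp (c i * t) * b.coord i v := by
  classical
  have h : (b.coord i).comp (ρ (T t) : E →ₗ[ℝ] E) = Real.exp (c i * t) • b.coord i := by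
    apply b.ext
    intro l
    rw [LinearMap.comp_apply, LinearEquiv.coe_coe, hc, map_smul, LinearMap.smul_apply,
      Module.Basis.coord_apply, Module.Basis.repr_self, Finsupp.single_apply]
    split_ifs with h1
    · rw [h1]
    · simp
  exact congrArg (fun f : E →ₗ[ℝ] ℝ => f v) h

omit [FiniteDimensional ℝ E] in
theorem bound (hK : IsCompact K) (hρ : ∀ v : E, Continuous fun g : G => ρ g v)
    [FiniteDimensional ℝ E] :
    ∃ N : ℝ, 0 ≤ N ∧ ∀ k ∈ K, ∀ i j : ι, |b.coord i (ρ k (b j))| ≤ N ∧
      |b.coord i (ρ k⁻¹ (b j))| ≤ N := by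
  have h1 : ∀ i j : ι, ∃ N : ℝ, ∀ k ∈ K, |b.coord i (ρ k (b j))| ≤ N := by
    intro i j
    have hcont : Continuous fun g : G => |b.coord i (ρ g (b j))| := by
      have := (LinearMap.toContinuousLinearMap (b.coord i)).continuous.comp (hρ (b j))
      exact continuous_abs.comp this
    obtain ⟨N, hN⟩ := hK.bddAbove_image hcont.continuousOn
    exact ⟨N, fun k hk => hN ⟨k, hk, rfl⟩⟩
  have h2 : ∀ i j : ι, ∃ N : ℝ, ∀ k ∈ K, |b.coord i (ρ k⁻¹ (b j))| ≤ N := by
    intro i j
    have hcont : Continuous fun g : G => |b.coord i (ρ g⁻¹ (b j))| := by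
      have := (LinearMap.toContinuousLinearMap (b.coord i)).continuous.comp
        ((hρ (b j)).comp continuous_inv)
      exact continuous_abs.comp this
    obtain ⟨N, hN⟩ := hK.bddAbove_image hcont.continuousOn
    exact ⟨N, fun k hk => hN ⟨k, hk, rfl⟩⟩
  choose N1 hN1 using h1
  choose N2 hN2 using h2
  refine ⟨∑ i, ∑ j, (|N1 i j| + |N2 i j|), by positivity, fun k hk i j => ?_⟩
  have h3 : |N1 i j| + |N2 i j| ≤ ∑ i, ∑ j, (|N1 i j| + |N2 i j|) := by
    refine le_trans ?_ (Finset.single_le_sum (f := fun i => ∑ j, (|N1 i j| + |N2 i j|))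
      (fun i _ => by positivity) (Finset.mem_univ i))
    exact Finset.single_le_sum (f := fun j => |N1 i j| + |N2 i j|)
      (fun i _ => by positivity) (Finset.mem_univ j)
  constructor
  · exact ((hN1 i j k hk).trans (le_abs_self _)).trans
      ((le_add_of_nonneg_right (abs_nonneg _)).trans h3)
  · exact ((hN2 i j k hk).trans (le_abs_self _)).trans
      ((le_add_of_nonneg_left (abs_nonneg _)).trans h3)

/-- the entries of the elements of `P` -/
theorem entries (h : RankOne K P T w) (hρ : ∀ v : E, Continuous fun g : G => ρ g v)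
    (hc : ∀ (j : ι) (t : ℝ), ρ (T t) (b j) = Real.exp (c j * t) • b j) :
    ∃ N : ℝ, 0 ≤ N ∧ ∀ p ∈ P, ∃ s : ℝ, (∀ i j : ι, c i < c j → b.coord i (ρ p (b j)) = 0) ∧
      ∀ i j : ι, c i = c j → |b.coord i (ρ p (b j))| ≤ N * Real.exp (c i * s) ∧
        |b.coord i (ρ p⁻¹ (b j))| ≤ N * (Real.exp (c i * s))⁻¹ := by
  obtain ⟨N, hN0, hN⟩ := bound b h.compact hρ
  refine ⟨N, hN0, fun p hp => ?_⟩
  obtain ⟨s, hs⟩ := P_form h hp
  have e1 : ∀ᶠ t : ℝ in atTop, ∀ i j : ι, |b.coord i (ρ p (b j))| ≤
      N * Real.exp (c i * s) * Real.exp ((c i - c j) * t) := by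
    filter_upwards [hs] with t ht i j
    obtain ⟨k, hk, hp1, -⟩ := ht
    have h1 : b.coord i (ρ p (b j)) = Real.exp (c i * s) * Real.exp ((c i - c j) * t) *
        b.coord i (ρ k (b j)) := by
      rw [hp1, map_mul, map_mul, map_mul, LinearEquiv.mul_apply, LinearEquiv.mul_apply,
        LinearEquiv.mul_apply, coord_T b c hc, coord_T b c hc, hc, map_smul, map_smul, smul_eq_mul]
      rw [show (c i - c j) * t = c i * t + c j * -t by ring, Real.exp_add]
      ring
    rw [h1, abs_mul, abs_of_pos (mul_pos (Real.exp_pos _) (Real.exp_pos _))]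
    have h2 := mul_le_mul_of_nonneg_left (hN k hk i j).1
      (mul_pos (Real.exp_pos (c i * s)) (Real.exp_pos ((c i - c j) * t))).le
    linarith
  have e2 : ∀ᶠ t : ℝ in atTop, ∀ i j : ι, c i = c j → |b.coord i (ρ p⁻¹ (b j))| ≤
      N * (Real.exp (c i * s))⁻¹ := by
    filter_upwards [hs] with t ht i j hij
    obtain ⟨k, hk, -, hp1⟩ := ht
    have h1 : b.coord i (ρ p⁻¹ (b j)) = (Real.exp (c i * s))⁻¹ *
        b.coord i (ρ k⁻¹ (b j)) := by
      rw [hp1, map_mul, map_mul, map_mul, LinearEquiv.mul_apply, LinearEquiv.mul_apply,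
        LinearEquiv.mul_apply, coord_T b c hc, hc, map_smul, map_smul, hc, map_smul, map_smul,
        map_smul, smul_eq_mul, smul_eq_mul, ← hij, ← Real.exp_neg]
      have h3 : Real.exp (c i * t) * Real.exp (c i * -t) = 1 := by
        rw [← Real.exp_add]
        simp
      rw [show c i * -s = -(c i * s) by ring]
      linear_combination (Real.exp (-(c i * s)) * b.coord i (ρ k⁻¹ (b j))) * h3
    rw [h1, abs_mul, abs_of_pos (inv_pos.2 (Real.exp_pos _))]
    have h2 := mul_le_mul_of_nonneg_left (hN k hk i j).2 (inv_pos.2 (Real.exp_pos (c i * s))).le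
    linarith
  refine ⟨s, fun i j hij => ?_, fun i j hij => ⟨?_, ?_⟩⟩
  · have h3 : Tendsto (fun t : ℝ => N * Real.exp (c i * s) * Real.exp ((c i - c j) * t)) atTop
        (𝓝 (N * Real.exp (c i * s) * 0)) := by
      apply Tendsto.const_mul
      apply Real.tendsto_exp_atBot.comp
      exact tendsto_id.const_mul_atTop_of_neg (by linarith)
    rw [mul_zero] at h3
    have h4 := ge_of_tendsto h3 (e1.mono fun t ht => ht i j)
    exact abs_nonpos_iff.1 h4
  · obtain ⟨t, ht⟩ := e1.exists
    have := ht i j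
    rwa [hij, sub_self, zero_mul, Real.exp_zero, mul_one, ← hij] at this
  · obtain ⟨t, ht⟩ := e2.exists
    exact ht i j hij

end rep

/-- WFLAG -/
theorem t_wflag : S_WFLAG := by
  classical
  intro G _ _ _ K P T w h E _ _ _ ρ hρ
  obtain ⟨hcont, hspan⟩ := hρ
  -- a basis of weight vectors
  obtain ⟨ι, _, b, hb⟩ : ∃ (ι : Type) (_ : Fintype ι) (b : Module.Basis ι ℝ E),
      ∀ j, ∃ c : ℝ, ∀ t : ℝ, ρ (T t) (b j) = Real.exp (c * t) • b j := by
    have hs := hspan.ge
    let b := Module.Basis.ofSpan hs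
    have hf := Module.Finite.finite_basis b
    refine ⟨_, Fintype.ofFinite _, b, fun j => ?_⟩
    exact Module.Basis.ofSpan_subset hs ⟨j, rfl⟩
  choose c hc using hb
  obtain ⟨N, hN0, hN⟩ := entries b c h hcont hc
  -- the ranks of the weights
  set W : Finset ℝ := Finset.univ.image c with hW
  set r : ι → ℕ := fun j => (W.filter fun x => c j < x).card with hr
  have r_lt : ∀ i j, c i < c j → r j < r i := by
    intro i j hij
    apply Finset.card_lt_card
    rw [Finset.ssubset_iff_of_subset]
    · exact ⟨c j, Finset.mem_filter.2 ⟨Finset.mem_image_of_mem _ (Finset.mem_univ _), hij⟩,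
        fun h1 => lt_irrefl _ (Finset.mem_filter.1 h1).2⟩
    · intro x hx
      rw [Finset.mem_filter] at hx ⊢
      exact ⟨hx.1, hij.trans hx.2⟩
  have r_m : ∀ j, r j < W.card := by
    intro j
    apply Finset.card_lt_card
    rw [Finset.ssubset_iff_of_subset (Finset.filter_subset _ _)]
    exact ⟨c j, Finset.mem_image_of_mem _ (Finset.mem_univ _),
      fun h1 => lt_irrefl _ (Finset.mem_filter.1 h1).2⟩
  have r_lt' : ∀ i j, r j < r i → c i < c j := by
    intro i j hij
    by_contra h1
    rcases (not_lt.1 h1).lt_or_eq with h2 | h2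
    · exact absurd (r_lt j i h2) (by omega)
    · simp only [hr, h2] at hij
      exact lt_irrefl _ hij
  have r_eq : ∀ i j, r i = r j → c i = c j := by
    intro i j hij
    rcases lt_trichotomy (c i) (c j) with h1 | h1 | h1
    · exact absurd (r_lt i j h1) (by omega)
    · exact h1
    · exact absurd (r_lt j i h1) (by omega)
  let S : ℕ → Submodule ℝ E := fun i =>
    { carrier := {v | ∀ j, i ≤ r j → b.coord j v = 0}
      add_mem' := fun {x y} hx hy j hj => by rw [map_add, hx j hj, hy j hj, add_zero]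
      zero_mem' := fun j _ => map_zero _
      smul_mem' := fun a x hx j hj => by rw [map_smul, hx j hj, smul_zero] }
  have memS : ∀ (i : ℕ) (v : E), v ∈ S i ↔ ∀ j, i ≤ r j → b.coord j v = 0 := fun i v => Iff.rfl
  -- coordinates of `ρ g v`
  have expand : ∀ (g : G) (v : E) (j : ι), b.coord j (ρ g v) =
      ∑ l, b.coord l v * b.coord j (ρ g (b l)) := by
    intro g v j
    conv_lhs => rw [← b.sum_repr v]
    rw [map_sum, map_sum]
    refine Finset.sum_congr rfl fun l _ => ?_
    simp only [map_smul, smul_eq_mul, Module.Basis.coord_apply]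
  set X : ℝ := ∑ l, ‖LinearMap.toContinuousLinearMap (b.coord l)‖ with hX
  set B : ℝ := ∑ l, ‖b l‖ with hB
  have hX0 : 0 ≤ X := by positivity
  have hB0 : 0 ≤ B := by positivity
  have inv : ∀ i, ∀ p ∈ P, ∀ v ∈ S i, ρ p v ∈ S i := by
    intro i p hp v hv j hj
    rw [expand]
    obtain ⟨s, h1, -⟩ := hN p hp
    refine Finset.sum_eq_zero fun l _ => ?_
    by_cases h2 : i ≤ r l
    · rw [hv l h2, zero_mul]
    · rw [h1 j l (r_lt' j l (by omega)), mul_zero]
  -- the estimate
  have est : ∀ (i : ℕ) (g : G) (A : ℝ), 0 ≤ A → (∀ v ∈ S (i + 1), ρ g v ∈ S (i + 1)) →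
      (∀ j l, r j = i → r l < i → b.coord j (ρ g (b l)) = 0) →
      (∀ j l, r j = i → r l = i → |b.coord j (ρ g (b l))| ≤ A) → ∀ v ∈ S (i + 1),
        ∃ u ∈ S i, ‖ρ g v - u‖ ≤ X * B * A * ‖v‖ := by
    intro i g A hA hg h1 h2 v hv
    refine ⟨∑ j ∈ Finset.univ.filter (fun j => r j < i), b.coord j (ρ g v) • b j, ?_, ?_⟩
    · intro l hl
      rw [map_sum]
      refine Finset.sum_eq_zero fun j hj => ?_
      have hj' := (Finset.mem_filter.1 hj).2
      have h9 : b.coord l (b j) = 0 := by
        rw [Module.Basis.coord_apply, Module.Basis.repr_self, Finsupp.single_apply, if_neg]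
        rintro rfl
        omega
      rw [map_smul, h9, smul_zero]
    · have h3 : ρ g v - ∑ j ∈ Finset.univ.filter (fun j => r j < i), b.coord j (ρ g v) • b j =
          ∑ j ∈ Finset.univ.filter (fun j => ¬ r j < i), b.coord j (ρ g v) • b j := by
        rw [sub_eq_iff_eq_add, add_comm, Finset.sum_filter_add_sum_filter_not]
        exact (b.sum_repr (ρ g v)).symm
      rw [h3]
      have h4 : ∀ j, ¬ r j < i → |b.coord j (ρ g v)| ≤ X * A * ‖v‖ := by
        intro j hj
        by_cases h5 : r j = i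
        · rw [expand]
          refine (Finset.abs_sum_le_sum_abs _ _).trans ?_
          rw [hX, Finset.sum_mul, Finset.sum_mul]
          refine Finset.sum_le_sum fun l _ => ?_
          rw [abs_mul]
          have h6 : |b.coord l v| ≤ ‖LinearMap.toContinuousLinearMap (b.coord l)‖ * ‖v‖ :=
            (LinearMap.toContinuousLinearMap (b.coord l)).le_opNorm v
          by_cases h7 : i + 1 ≤ r l
          · rw [hv l h7, abs_zero, zero_mul]
            positivity
          · by_cases h8 : r l = i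
            · have h9 := h2 j l h5 h8
              calc |b.coord l v| * |b.coord j (ρ g (b l))| ≤
                  (‖LinearMap.toContinuousLinearMap (b.coord l)‖ * ‖v‖) * A :=
                    mul_le_mul h6 h9 (abs_nonneg _) (by positivity)
                _ = _ := by ring
            · rw [h1 j l h5 (by omega), abs_zero, mul_zero]
              positivity
        · have h6 : b.coord j (ρ g v) = 0 := hg v hv j (by omega)
          rw [h6, abs_zero]
          positivity
      refine (norm_sum_le _ _).trans ?_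
      have h5 : ∀ j ∈ Finset.univ.filter (fun j => ¬ r j < i),
          ‖b.coord j (ρ g v) • b j‖ ≤ X * A * ‖v‖ * ‖b j‖ := by
        intro j hj
        rw [norm_smul, Real.norm_eq_abs]
        exact mul_le_mul_of_nonneg_right (h4 j (Finset.mem_filter.1 hj).2) (norm_nonneg _)
      refine (Finset.sum_le_sum h5).trans ?_
      rw [← Finset.mul_sum]
      have h6 : ∑ j ∈ Finset.univ.filter (fun j => ¬ r j < i), ‖b j‖ ≤ B :=
        Finset.sum_le_sum_of_subset_of_nonneg (Finset.filter_subset _ _)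
          (fun _ _ _ => norm_nonneg _)
      calc X * A * ‖v‖ * ∑ j ∈ Finset.univ.filter (fun j => ¬ r j < i), ‖b j‖ ≤
          X * A * ‖v‖ * B := mul_le_mul_of_nonneg_left h6 (by positivity)
        _ = _ := by ring
  refine ⟨W.card, S, X * B * N, ?_, ?_, ?_, fun i _ => inv i, ?_⟩
  · rw [eq_bot_iff]
    intro v hv
    rw [Submodule.mem_bot]
    apply b.ext_elem
    intro j
    rw [map_zero]
    exact hv j (Nat.zero_le _)
  · rw [eq_top_iff]
    intro v _ j hj
    exact absurd (r_m j) (by omega)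
  · intro i _ v hv j hj
    exact hv j (by omega)
  · intro i _ p hp
    obtain ⟨s, h1, h2⟩ := hN p hp
    by_cases hi : ∃ j0, r j0 = i
    · obtain ⟨j0, hj0⟩ := hi
      refine ⟨Real.exp (c j0 * s), Real.exp_pos _, fun v hv => ⟨?_, ?_⟩⟩
      · obtain ⟨u, hu, h3⟩ := est i p (N * Real.exp (c j0 * s)) (by positivity)
          (fun v hv => inv _ p hp v hv) (fun j l hj hl => h1 j l (r_lt' j l (by omega)))
          (fun j l hj hl => by
            have h4 := (h2 j l (r_eq j l (hj.trans hl.symm))).1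
            rwa [r_eq j j0 (hj.trans hj0.symm)] at h4) v hv
        exact ⟨u, hu, h3.trans (le_of_eq (by ring))⟩
      · obtain ⟨s', h1', -⟩ := hN p⁻¹ (inv_mem hp)
        obtain ⟨u, hu, h3⟩ := est i p⁻¹ (N * (Real.exp (c j0 * s))⁻¹) (by positivity)
          (fun v hv => inv _ p⁻¹ (inv_mem hp) v hv)
          (fun j l hj hl => h1' j l (r_lt' j l (by omega)))
          (fun j l hj hl => by
            have h4 := (h2 j l (r_eq j l (hj.trans hl.symm))).2
            rwa [r_eq j j0 (hj.trans hj0.symm)] at h4) v hv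
        exact ⟨u, hu, h3.trans (le_of_eq (by ring))⟩
    · refine ⟨1, one_pos, fun v hv => ?_⟩
      have h3 : ∀ g ∈ P, ρ g v ∈ S i := by
        intro g hg j hj
        have h4 := inv _ g hg v hv
        rcases hj.lt_or_eq with h5 | h5
        · exact h4 j h5
        · exact absurd ⟨j, h5.symm⟩ hi
      refine ⟨⟨_, h3 p hp, ?_⟩, ⟨_, h3 _ (inv_mem hp), ?_⟩⟩
      · rw [sub_self, norm_zero]
        positivity
      · rw [sub_self, norm_zero]
        positivity

end Pool.Agent.N278.RO
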